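import Pool.Agent.Q74.BH.Stm

/-! Project BH, job Base: the law at unit scale for the odd integers of a window up to the time `6 s / 5`. -/

set_option autoImplicit false

namespace Pool.Agent.Q176.BH

open Finset
open Pool.Agent.TH930.EBQ (ones wd words cw T iter_eq wd_mem wd_inj ones_cons_true ones_cons_false
  cw_cons_true cw_cons_false mem_words card_words ones_le_length)
open Pool.Agent.H320R2.PD (FWT wwt Wo)
open Pool.Agent.H499R2.ND (cls mem_cls cls_unit dev mem_win ap mem_ap ap_card_le mix)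
open Pool.Agent.Q158.Col3 (PB)
open Pool.Agent.Q158.Col4 (exp_decay log3_lt class_le)
open Pool.Agent.Q74.BH

lemma cw_bound (v : List Bool) : cw v + 2 ^ v.length ≤ 2 ^ v.length * 3 ^ ones v := by
  induction v with
  | nil => simp
  | cons b v ih =>
    cases b
    · rw [cw_cons_false, ones_cons_false, List.length_cons, pow_succ]
      nlinarith
    · rw [cw_cons_true, ones_cons_true, List.length_cons, pow_succ, pow_succ]
      have : 3 ^ ones v ≤ 2 ^ v.length * 3 ^ ones v := Nat.le_mul_of_pos_left _ (by positivity)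
      nlinarith

lemma edge_card {n t : ℕ} (e : ℤ) {β σ : ℝ} (hσ : 0 ≤ σ) (hσ1 : σ ≤ 3 ^ n) (G : Finset ℤ)
    (hG : ∀ z ∈ G, (β ≤ z ∧ (z : ℝ) < β + σ) ∧ (3 : ℤ) ^ n ∣ 2 ^ t * z - e) :
    (G.card : ℝ) ≤ 2 := by
  rcases G.eq_empty_or_nonempty with rfl | ⟨y, hy⟩
  · simp
  · have hsub : G ⊆ ap β (β + σ) (3 ^ n) y := by
      intro x hx
      rw [mem_ap]
      refine ⟨(hG x hx).1, ?_⟩
      have h1 := dvd_sub (hG x hx).2 (hG y hy).2
      rw [show 2 ^ t * x - e - (2 ^ t * y - e) = 2 ^ t * (x - y) by ring] at h1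
      have hc : IsCoprime ((3 : ℤ) ^ n) (2 ^ t) := by
        apply IsCoprime.pow
        rw [Int.isCoprime_iff_gcd_eq_one]; norm_num
      exact hc.dvd_of_dvd_mul_left h1
    have h1 : (G.card : ℝ) ≤ (ap β (β + σ) (3 ^ n) y).card := by exact_mod_cast card_le_card hsub
    have h2 := ap_card_le (by linarith : β ≤ β + σ) (q := 3 ^ n) (by positivity) y
    push_cast at h2
    have h3 : (β + σ - β) / 3 ^ n ≤ 1 := by
      rw [div_le_one (by positivity)]; linarith
    linarith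

open Classical in
/-- the points of one word -/
lemma word_card (S : Set ℤ) {a b : ℝ} (t m : ℕ) (c : ℤ) (v : List Bool)
    (hv : v.length = t) (F : Finset ℤ)
    (hF : ∀ x ∈ F, (a ≤ x ∧ (x : ℝ) < b) ∧ (3 : ℤ) ^ m ∣ 1 * x - c ∧ wd 1 t x = v ∧
      (T 1)^[t] x ∈ S) :
    (F.card : ℝ) ≤ (((Ico ⌈a * 3 ^ ones v / 2 ^ t⌉ ⌈b * 3 ^ ones v / 2 ^ t⌉).filter
      (fun z => z ∈ S ∧ (3 : ℤ) ^ (ones v + m) ∣
        2 ^ t * z - ((cw v : ℤ) + 3 ^ ones v * c))).card : ℝ) + 2 := by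
  have h2t : (0 : ℝ) < 2 ^ t := by positivity
  -- the relation between `x` and its value
  have hrel : ∀ x ∈ F, 2 ^ t * (T 1)^[t] x = 3 ^ ones v * x + cw v := by
    intro x hx
    have := iter_eq odd_one t x
    rw [(hF x hx).2.2.1] at this
    rw [this, one_mul]
  have hinj : Set.InjOn ((T 1)^[t]) (F : Set ℤ) := by
    intro x hx y hy hxy
    have e1 := hrel x hx
    have e2 := hrel y hy
    rw [hxy, e2] at e1
    have h3 : (3 : ℤ) ^ ones v ≠ 0 := by positivity
    have : (3 : ℤ) ^ ones v * x = 3 ^ ones v * y := by linarith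
    exact mul_left_cancel₀ h3 this
  set σ : ℝ := (cw v : ℝ) / 2 ^ t with hσ
  have hσ0 : 0 ≤ σ := by rw [hσ]; positivity
  have hσ1 : σ ≤ 3 ^ ones v := by
    rw [hσ, div_le_iff₀ h2t]
    have h1 := cw_bound v
    rw [hv] at h1
    have h2 : cw v ≤ 3 ^ ones v * 2 ^ t := by
      rw [mul_comm]
      exact (Nat.le_add_right _ _).trans h1
    exact_mod_cast h2
  set N := (Ico ⌈a * 3 ^ ones v / 2 ^ t⌉ ⌈b * 3 ^ ones v / 2 ^ t⌉).filter
      (fun z => z ∈ S ∧ (3 : ℤ) ^ (ones v + m) ∣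
        2 ^ t * z - ((cw v : ℤ) + 3 ^ ones v * c)) with hN
  set G := (F.image ((T 1)^[t])).filter (fun z : ℤ => b * 3 ^ ones v / 2 ^ t ≤ (z : ℝ)) with hG
  have hprop : ∀ z ∈ F.image ((T 1)^[t]), z ∈ S ∧ (3 : ℤ) ^ (ones v + m) ∣
      2 ^ t * z - ((cw v : ℤ) + 3 ^ ones v * c) ∧ a * 3 ^ ones v / 2 ^ t ≤ z ∧
      (z : ℝ) < b * 3 ^ ones v / 2 ^ t + σ := by
    intro z hz
    rw [mem_image] at hz
    obtain ⟨x, hx, rfl⟩ := hz
    obtain ⟨⟨h1, h2⟩, h3, h4, h5⟩ := hF x hx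
    have e1 := hrel x hx
    have e2 : (2 : ℝ) ^ t * (((T 1)^[t] x : ℤ) : ℝ) = 3 ^ ones v * x + cw v := by exact_mod_cast e1
    refine ⟨h5, ?_, ?_, ?_⟩
    · rw [e1, show (3 : ℤ) ^ ones v * x + cw v - (cw v + 3 ^ ones v * c) =
        3 ^ ones v * (1 * x - c) by ring, pow_add]
      exact mul_dvd_mul_left _ h3
    · rw [div_le_iff₀ h2t, mul_comm _ ((2 : ℝ) ^ t), e2]
      have h6 : a * 3 ^ ones v ≤ x * 3 ^ ones v := mul_le_mul_of_nonneg_right h1 (by positivity)
      have h7 : (0 : ℝ) ≤ cw v := Nat.cast_nonneg _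
      linarith
    · rw [hσ, ← add_div, lt_div_iff₀ h2t, mul_comm _ ((2 : ℝ) ^ t), e2]
      have h6 : x * 3 ^ ones v < b * 3 ^ ones v := mul_lt_mul_of_pos_right h2 (by positivity)
      linarith
  have hsub : F.image ((T 1)^[t]) ⊆ N ∪ G := by
    intro z hz
    obtain ⟨h1, h2, h3, h4⟩ := hprop z hz
    rw [mem_union]
    by_cases hzb : b * 3 ^ ones v / 2 ^ t ≤ (z : ℝ)
    · right
      rw [hG, mem_filter]
      exact ⟨hz, hzb⟩
    · left
      rw [hN, mem_filter, mem_win]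
      exact ⟨⟨h3, not_le.1 hzb⟩, h1, h2⟩
  have hGc : (G.card : ℝ) ≤ 2 := by
    apply edge_card (n := ones v + m) (t := t) ((cw v : ℤ) + 3 ^ ones v * c) hσ0
      (β := b * 3 ^ ones v / 2 ^ t) (hσ1.trans (pow_le_pow_right₀ (by norm_num) (by omega)))
    intro z hz
    rw [hG, mem_filter] at hz
    obtain ⟨h1, h2, h3, h4⟩ := hprop z hz.1
    exact ⟨⟨hz.2, h4⟩, h2⟩
  have hc1 : F.card = (F.image ((T 1)^[t])).card := (card_image_of_injOn hinj).symm
  have hc2 : (F.image ((T 1)^[t])).card ≤ N.card + G.card :=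
    (card_le_card hsub).trans (card_union_le _ _)
  have hc3 : (F.card : ℝ) ≤ N.card + G.card := by
    rw [hc1]; exact_mod_cast hc2
  linarith

open Classical in
/-- the mixing step for one number of odd steps -/
lemma level (hC : S_Cls) (hM : S_Mix3) (hB : S_Bits) {a b : ℝ} (hab : a < b)
    {t m μ o : ℕ} (ht : 1 ≤ t) (ho : 1 ≤ o) (hot : o ≤ t) (hμ : μ ≤ o) (E : ℕ → Set ℤ)
    (g : ℕ → ℤ → ℝ)
    (hE : ∀ (o : ℕ) (r : ℤ), o ≤ t → 0 ≤ r → r < 3 ^ μ →
      ((cn (E o) (a * 3 ^ o / 2 ^ t) (b * 3 ^ o / 2 ^ t) μ r).card : ℝ) ≤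
        g o r * ((b - a) * 3 ^ o / 2 ^ t / 3 ^ μ)) (c : ℤ) :
    ∑ v ∈ (words (t - 1)).filter (fun v => ones v + 1 = o),
      (((Ico ⌈a * 3 ^ o / 2 ^ t⌉ ⌈b * 3 ^ o / 2 ^ t⌉).filter
        (fun z => z ∈ E o ∧ (3 : ℤ) ^ (o + m) ∣
          2 ^ t * z - ((cw (true :: v) : ℤ) + 3 ^ o * c))).card : ℝ) ≤
      (∑ v ∈ (words (t - 1)).filter (fun v => ones v + 1 = o), g o (cl μ (true :: v))) *
          ((b - a) / (2 ^ t * 3 ^ m)) +
        ((b - a) / 3 ^ m + 2 ^ t) * dev (FWT (3 * t) o t) wwt (fun w => (Wo w : ℤ)) (o + m) μ := by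
  have hba : 0 < b - a := by linarith
  have hA : t ≤ 3 * t := by omega
  have h1 := hB (3 * t) o t ht hA (fun n => (((Ico ⌈a * 3 ^ o / 2 ^ t⌉ ⌈b * 3 ^ o / 2 ^ t⌉).filter
        (fun z => z ∈ E o ∧ (3 : ℤ) ^ (o + m) ∣
          2 ^ t * z - ((n : ℤ) + 3 ^ o * c))).card : ℝ))
  have h2 := hB (3 * t) o t ht hA (fun n => (((Ico ⌈a * 3 ^ o / 2 ^ t⌉ ⌈b * 3 ^ o / 2 ^ t⌉).filter
        (fun z => z ∈ E o ∧ (3 : ℤ) ^ μ ∣ 2 ^ t * z - (n : ℤ))).card : ℝ))
  have hle : a * 3 ^ o / 2 ^ t ≤ b * 3 ^ o / 2 ^ t := by gcongr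
  have h3 := hM (E o) (a * 3 ^ o / 2 ^ t) (b * 3 ^ o / 2 ^ t) hle (3 * t) o m μ t hμ ho c
  rw [← h1]
  refine h3.trans ?_
  rw [h2]
  have h4 : ∀ v ∈ (words (t - 1)).filter (fun v => ones v + 1 = o),
      ((((Ico ⌈a * 3 ^ o / 2 ^ t⌉ ⌈b * 3 ^ o / 2 ^ t⌉).filter
        (fun z => z ∈ E o ∧ (3 : ℤ) ^ μ ∣ 2 ^ t * z - ((cw (true :: v) : ℕ) : ℤ))).card : ℕ) : ℝ) ≤
      g o (cl μ (true :: v)) * ((b - a) * 3 ^ o / 2 ^ t / 3 ^ μ) := by
    intro v hv
    rw [mem_filter, mem_words] at hv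
    have hl : (true :: v).length = t := by
      rw [List.length_cons, hv.1]; omega
    obtain ⟨h5, h6⟩ := hC.1 μ (true :: v)
    refine le_trans (le_of_eq ?_) (hE o (cl μ (true :: v)) hot h5 h6)
    unfold cn
    congr 2
    ext z
    rw [mem_filter, mem_filter]
    have := hC.2.1 μ (true :: v) z
    rw [hl] at this
    rw [this]
  have h5 := sum_le_sum h4
  rw [← sum_mul] at h5
  set Sg := ∑ v ∈ (words (t - 1)).filter (fun v => ones v + 1 = o), g o (cl μ (true :: v)) with hSg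
  set δ := dev (FWT (3 * t) o t) wwt (fun w => (Wo w : ℤ)) (o + m) μ with hδ
  have h6 : (∑ v ∈ (words (t - 1)).filter (fun v => ones v + 1 = o),
      ((((Ico ⌈a * 3 ^ o / 2 ^ t⌉ ⌈b * 3 ^ o / 2 ^ t⌉).filter
        (fun z => z ∈ E o ∧ (3 : ℤ) ^ μ ∣ 2 ^ t * z - ((cw (true :: v) : ℕ) : ℤ))).card : ℕ) : ℝ)) /
        3 ^ (o + m - μ) ≤ Sg * ((b - a) / (2 ^ t * 3 ^ m)) := by
    rw [div_le_iff₀ (by positivity)]
    refine h5.trans (le_of_eq ?_)
    have h7 : (3 : ℝ) ^ (o + m - μ) * 3 ^ μ = 3 ^ o * 3 ^ m := by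
      rw [← pow_add, ← pow_add]; congr 1; omega
    have h8 : (3 : ℝ) ^ o = 3 ^ (o + m - μ) * 3 ^ μ / 3 ^ m := by
      rw [h7]; field_simp
    rw [h8]
    field_simp
  have h7 : 2 ^ t * ((b * 3 ^ o / 2 ^ t - a * 3 ^ o / 2 ^ t) / 3 ^ (o + m) + 1) =
      (b - a) / 3 ^ m + 2 ^ t := by
    rw [pow_add]
    field_simp
  rw [h7]
  exact add_le_add h6 le_rfl

open Classical in
/-- the main count for one class -/
theorem count (hC : S_Cls) (hM : S_Mix3) (hB : S_Bits) (hF : S_Few) {a b : ℝ} (hab : a < b)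
    {t m μ : ℕ} (ht : 1 ≤ t) (hμ : ∀ o : ℕ, t ≤ 4 * o → μ ≤ o) (E : ℕ → Set ℤ) (g : ℕ → ℤ → ℝ)
    (hg : ∀ o r, 0 ≤ g o r ∧ g o r ≤ 2)
    (hE : ∀ (o : ℕ) (r : ℤ), o ≤ t → 0 ≤ r → r < 3 ^ μ →
      ((cn (E o) (a * 3 ^ o / 2 ^ t) (b * 3 ^ o / 2 ^ t) μ r).card : ℝ) ≤
        g o r * ((b - a) * 3 ^ o / 2 ^ t / 3 ^ μ)) (c : ℤ) {D : ℝ} (hD0 : 0 ≤ D)
    (hD : ∀ o : ℕ, t ≤ 4 * o → o ≤ t →
      dev (FWT (3 * t) o t) wwt (fun w => (Wo w : ℤ)) (o + m) μ ≤ D) :
    ((cls (SE t E) a b m 1 c).card : ℝ) ≤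
      OW t (fun v => g (ones v) (cl μ v)) * ((b - a) / (2 * 3 ^ m)) +
        Real.exp (-(t / 16 : ℝ)) * ((b - a) / 3 ^ m) + 2 * 2 ^ t +
        ((b - a) / 3 ^ m + 2 ^ t) * ((t + 1) * D) := by
  have hba : 0 < b - a := by linarith
  set X := cls (SE t E) a b m 1 c with hX
  have hmap : ∀ x ∈ X, wd 1 t x ∈ (words (t - 1)).image (List.cons true) := by
    intro x hx
    rw [hX, mem_cls] at hx
    rw [mem_image]
    obtain ⟨s, rfl⟩ := Nat.exists_eq_add_of_le ht
    refine ⟨wd 1 s (T 1 x), by rw [show 1 + s - 1 = s by omega]; exact wd_mem _ _ _, ?_⟩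
    rw [Nat.add_comm 1 s]
    simp only [wd]
    have := Int.odd_iff.1 hx.2.1
    rw [this]
    simp
  have h1 : (X.card : ℝ) = ∑ v' ∈ (words (t - 1)).image (List.cons true),
      ((X.filter (fun x => wd 1 t x = v')).card : ℝ) := by
    rw [card_eq_sum_card_fiberwise hmap]
    push_cast
    rfl
  rw [h1, sum_image (fun a _ b _ h => by simpa using h)]
  -- the number of values
  set f : ℕ → List Bool → ℝ := fun o v => (((Ico ⌈a * 3 ^ o / 2 ^ t⌉ ⌈b * 3 ^ o / 2 ^ t⌉).filter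
      (fun z => z ∈ E o ∧ (3 : ℤ) ^ (o + m) ∣
        2 ^ t * z - ((cw (true :: v) : ℤ) + 3 ^ o * c))).card : ℝ) with hf
  have hfew : ∀ v ∈ words (t - 1), ((X.filter (fun x => wd 1 t x = true :: v)).card : ℝ) ≤
      (b - a) / (2 ^ t * 3 ^ m) + 1 := by
    intro v _
    have h2 := class_le (q := 1) (t := t) (le_refl 1) (by norm_num) (m := m) (u := 1) (v := c)
      isCoprime_one_left hab.le (X.filter (fun x => wd 1 t x = true :: v)) (true :: v) 0 (by
        intro x hx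
        rw [mem_filter, hX, mem_cls] at hx
        refine ⟨hx.1.1, hx.1.2.2.2, hx.2, ?_⟩
        simp)
    rw [Nat.cast_one, mul_one] at h2
    exact h2
  have hmany : ∀ v ∈ words (t - 1), ((X.filter (fun x => wd 1 t x = true :: v)).card : ℝ) ≤
      f (ones v + 1) v + 2 := by
    intro v hv
    have hl : (true :: v).length = t := by
      rw [List.length_cons, mem_words.1 hv]; omega
    have h2 := word_card (E (ones (true :: v))) (a := a) (b := b) t m c (true :: v) hl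
      (X.filter (fun x => wd 1 t x = true :: v)) (by
        intro x hx
        rw [mem_filter, hX, mem_cls] at hx
        obtain ⟨⟨h3, _, h4, h5⟩, h6⟩ := hx
        refine ⟨h3, h5, h6, ?_⟩
        unfold SE at h4
        rw [Set.mem_ofPred_eq, h6] at h4
        exact h4)
    rw [ones_cons_true] at h2
    exact h2
  -- split the words
  set P : List Bool → Prop := fun v => 4 * (ones v + 1) < t with hP
  rw [← sum_filter_add_sum_filter_not (words (t - 1)) P]
  have hA1 : ∑ v ∈ (words (t - 1)).filter P, ((X.filter (fun x => wd 1 t x = true :: v)).card : ℝ) ≤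
      Real.exp (-(t / 16 : ℝ)) * ((b - a) / 3 ^ m) + ((words (t - 1)).filter P).card := by
    have h2 : ∑ v ∈ (words (t - 1)).filter P, ((X.filter (fun x => wd 1 t x = true :: v)).card : ℝ) ≤
        ∑ v ∈ (words (t - 1)).filter P, ((b - a) / (2 ^ t * 3 ^ m) + 1) :=
      sum_le_sum fun v hv => hfew v (mem_filter.1 hv).1
    refine h2.trans ?_
    rw [sum_const, nsmul_eq_mul, mul_add, mul_one]
    apply add_le_add_left
    have h3 := hF t ht
    unfold OW at h3
    rw [div_le_iff₀ (by positivity)] at h3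
    have h4 : (((words (t - 1)).filter P).card : ℝ) =
        ∑ v ∈ words (t - 1), (if 4 * ones (true :: v) < t then (1 : ℝ) else 0) := by
      rw [card_filter]
      push_cast
      apply sum_congr rfl
      intro v _
      rw [ones_cons_true]
    have h5 : (2 : ℝ) ^ t = 2 * 2 ^ (t - 1) := by
      rw [← pow_succ']; congr 1; omega
    rw [h4]
    calc (∑ v ∈ words (t - 1), (if 4 * ones (true :: v) < t then (1 : ℝ) else 0)) *
          ((b - a) / (2 ^ t * 3 ^ m)) ≤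
          (2 * Real.exp (-(t / 16 : ℝ)) * 2 ^ (t - 1)) * ((b - a) / (2 ^ t * 3 ^ m)) := by
          apply mul_le_mul_of_nonneg_right h3
          exact div_nonneg hba.le (by positivity)
      _ = _ := by
          rw [h5]
          field_simp
  have hA2 : ∑ v ∈ (words (t - 1)).filter (fun v => ¬ P v),
      ((X.filter (fun x => wd 1 t x = true :: v)).card : ℝ) ≤
      ∑ v ∈ (words (t - 1)).filter (fun v => ¬ P v), f (ones v + 1) v +
        2 * ((words (t - 1)).filter (fun v => ¬ P v)).card := by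
    have h2 := sum_le_sum (fun v hv => hmany v (mem_filter.1 hv).1 :
      ∀ v ∈ (words (t - 1)).filter (fun v => ¬ P v), _)
    refine h2.trans (le_of_eq ?_)
    rw [sum_add_distrib, sum_const, nsmul_eq_mul]
    ring
  have hcard : ((((words (t - 1)).filter P).card : ℕ) : ℝ) +
      2 * ((words (t - 1)).filter (fun v => ¬ P v)).card ≤ 2 * 2 ^ t := by
    have h2 := card_filter_add_card_filter_not (s := words (t - 1)) P
    rw [card_words] at h2
    have h3 : (2 : ℝ) ^ t = 2 * 2 ^ (t - 1) := by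
      rw [← pow_succ']; congr 1; omega
    have h4 : ((((words (t - 1)).filter P).card : ℕ) : ℝ) +
      ((words (t - 1)).filter (fun v => ¬ P v)).card = 2 ^ (t - 1) := by exact_mod_cast h2
    rw [h3]
    have h5 : (0 : ℝ) ≤ (((words (t - 1)).filter P).card : ℕ) := Nat.cast_nonneg _
    have h6 : (0 : ℝ) < 2 ^ (t - 1) := by positivity
    linarith
  -- the levels
  set O := (range (t + 1)).filter (fun o => t ≤ 4 * o) with hO
  have hmapO : ∀ v ∈ (words (t - 1)).filter (fun v => ¬ P v), ones v + 1 ∈ O := by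
    intro v hv
    rw [mem_filter, mem_words] at hv
    have := ones_le_length v
    rw [hO, mem_filter, mem_range]
    have h2 := hv.2
    rw [hP] at h2
    simp only [not_lt] at h2
    omega
  have hfib : ∀ F : List Bool → ℝ, ∑ v ∈ (words (t - 1)).filter (fun v => ¬ P v), F v =
      ∑ o ∈ O, ∑ v ∈ (words (t - 1)).filter (fun v => ones v + 1 = o), F v := by
    intro F
    rw [← sum_fiberwise_of_maps_to hmapO]
    apply sum_congr rfl
    intro o ho
    rw [hO, mem_filter] at ho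
    apply sum_congr _ (fun _ _ => rfl)
    ext v
    rw [mem_filter, mem_filter, mem_filter]
    constructor
    · rintro ⟨⟨h2, _⟩, h3⟩
      exact ⟨h2, h3⟩
    · rintro ⟨h2, h3⟩
      refine ⟨⟨h2, ?_⟩, h3⟩
      rw [hP]
      simp only [not_lt]
      rw [h3]
      exact ho.2
  have hA3 : ∑ v ∈ (words (t - 1)).filter (fun v => ¬ P v), f (ones v + 1) v ≤
      (∑ v ∈ (words (t - 1)).filter (fun v => ¬ P v), g (ones v + 1) (cl μ (true :: v))) *
          ((b - a) / (2 ^ t * 3 ^ m)) + ((b - a) / 3 ^ m + 2 ^ t) * ((t + 1) * D) := by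
    rw [hfib, hfib]
    have h2 : ∀ o ∈ O, ∑ v ∈ (words (t - 1)).filter (fun v => ones v + 1 = o), f (ones v + 1) v ≤
        (∑ v ∈ (words (t - 1)).filter (fun v => ones v + 1 = o),
          g (ones v + 1) (cl μ (true :: v))) * ((b - a) / (2 ^ t * 3 ^ m)) +
          ((b - a) / 3 ^ m + 2 ^ t) * D := by
      intro o ho
      rw [hO, mem_filter, mem_range] at ho
      have e1 : ∑ v ∈ (words (t - 1)).filter (fun v => ones v + 1 = o), f (ones v + 1) v =
          ∑ v ∈ (words (t - 1)).filter (fun v => ones v + 1 = o), f o v := by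
        apply sum_congr rfl
        intro v hv
        rw [(mem_filter.1 hv).2]
      have e2 : ∑ v ∈ (words (t - 1)).filter (fun v => ones v + 1 = o),
          g (ones v + 1) (cl μ (true :: v)) =
          ∑ v ∈ (words (t - 1)).filter (fun v => ones v + 1 = o), g o (cl μ (true :: v)) := by
        apply sum_congr rfl
        intro v hv
        rw [(mem_filter.1 hv).2]
      rw [e1, e2]
      have h3 := level hC hM hB hab (t := t) (m := m) (μ := μ) (o := o) ht (by omega) (by omega)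
        (hμ o ho.2) E g hE c
      refine h3.trans ?_
      apply add_le_add_right
      apply mul_le_mul_of_nonneg_left (hD o ho.2 (by omega))
      have : 0 ≤ (b - a) / 3 ^ m := div_nonneg hba.le (by positivity)
      positivity
    refine (sum_le_sum h2).trans ?_
    rw [sum_add_distrib, ← sum_mul, sum_const, nsmul_eq_mul]
    apply add_le_add_right
    have h3 : (O.card : ℝ) ≤ t + 1 := by
      have := card_filter_le (range (t + 1)) (fun o => t ≤ 4 * o)
      rw [card_range] at this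
      exact_mod_cast this
    have h4 : 0 ≤ (b - a) / 3 ^ m + 2 ^ t := by
      have : 0 ≤ (b - a) / 3 ^ m := div_nonneg hba.le (by positivity)
      positivity
    calc (O.card : ℝ) * (((b - a) / 3 ^ m + 2 ^ t) * D) ≤
        (t + 1) * (((b - a) / 3 ^ m + 2 ^ t) * D) :=
          mul_le_mul_of_nonneg_right h3 (mul_nonneg h4 hD0)
      _ = _ := by ring
  have hA4 : (∑ v ∈ (words (t - 1)).filter (fun v => ¬ P v), g (ones v + 1) (cl μ (true :: v))) *
      ((b - a) / (2 ^ t * 3 ^ m)) ≤ OW t (fun v => g (ones v) (cl μ v)) * ((b - a) / (2 * 3 ^ m)) := by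
    have h2 : ∑ v ∈ (words (t - 1)).filter (fun v => ¬ P v), g (ones v + 1) (cl μ (true :: v)) ≤
        ∑ v ∈ words (t - 1), g (ones v + 1) (cl μ (true :: v)) :=
      sum_le_sum_of_subset_of_nonneg (filter_subset _ _) (fun v _ _ => (hg _ _).1)
    have h3 : (2 : ℝ) ^ t = 2 * 2 ^ (t - 1) := by
      rw [← pow_succ']; congr 1; omega
    unfold OW
    simp only [ones_cons_true]
    calc (∑ v ∈ (words (t - 1)).filter (fun v => ¬ P v), g (ones v + 1) (cl μ (true :: v))) *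
        ((b - a) / (2 ^ t * 3 ^ m)) ≤ (∑ v ∈ words (t - 1), g (ones v + 1) (cl μ (true :: v))) *
        ((b - a) / (2 ^ t * 3 ^ m)) :=
          mul_le_mul_of_nonneg_right h2 (div_nonneg hba.le (by positivity))
      _ = _ := by
          rw [h3]
          field_simp
  linarith

/-- JOB Base -/
theorem base (hC : S_Cls) (hM : S_Mix3) (hB : S_Bits) (hF : S_Few) : S_Base := by
  intro B
  obtain ⟨C, hC0, hmix⟩ := mix B
  set F₀ : ℝ := (B.factorial : ℝ) with hF₀
  have hF0 : 0 < F₀ := by rw [hF₀]; exact_mod_cast Nat.factorial_pos B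
  set K : ℝ := Real.exp 17 * (F₀ * 10 ^ B) with hK
  have hK0 : 0 < K := by positivity
  refine ⟨1 / 1600, 2 * (F₀ * 160 ^ B) + 4 * K + (2 + 2 * Real.exp 17) * (10 * C),
    by norm_num, by norm_num, by positivity, ?_⟩
  intro a b hab hs t htl htc μ hμ1 hμs E g hg hE m hm u v hu
  obtain ⟨c, hc⟩ := cls_unit (SE t E) a b m hu v
  rw [hc]
  have hba : 0 < b - a := by linarith
  set s := Real.log (b - a) with hsd
  have hs0 : 0 < s := by linarith
  have hexp : Real.exp s = b - a := Real.exp_log hba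
  have hμR : (1 : ℝ) ≤ μ := by exact_mod_cast hμ1
  have hs1600 : 1600 ≤ s := by
    have : (1 : ℝ) ≤ (μ : ℝ) ^ 2 := one_le_pow₀ hμR
    linarith
  have ht0 : (0 : ℝ) < t := by linarith
  have ht1 : 1 ≤ t := by exact_mod_cast ht0
  -- `40 μ ≤ √s`
  have hμsq : (40 * (μ : ℝ)) ^ 2 ≤ s := by nlinarith
  have hμs2 : 40 * (μ : ℝ) ≤ Real.sqrt s := Real.le_sqrt_of_sq_le hμsq
  have hms2 : (m : ℝ) ≤ Real.sqrt s := Real.le_sqrt_of_sq_le hm
  have hss : Real.sqrt s * Real.sqrt s = s := Real.mul_self_sqrt hs0.le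
  have hsq0 : 0 < Real.sqrt s := Real.sqrt_pos.2 hs0
  have hsq1 : Real.sqrt s ≤ s / 40 := by
    have : 40 ≤ Real.sqrt s := by linarith
    nlinarith
  have hμo : ∀ o : ℕ, t ≤ 4 * o → μ ≤ o := by
    intro o ho
    have h1 : (t : ℝ) ≤ 4 * o := by exact_mod_cast ho
    have h2 : (μ : ℝ) ≤ o := by linarith
    exact_mod_cast h2
  have hμB : 0 < (μ : ℝ) ^ B := by positivity
  have hms : (m : ℝ) ≤ s := by linarith
  -- the deviation
  set D : ℝ := (2.2 * s) * (C * (2 * (1 / (μ : ℝ)) ^ B)) with hDd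
  have hD0 : 0 ≤ D := by positivity
  have hD : ∀ o : ℕ, t ≤ 4 * o → o ≤ t →
      dev (FWT (3 * t) o t) wwt (fun w => (Wo w : ℤ)) (o + m) μ ≤ D := by
    intro o ho hot
    have h1 : (t : ℝ) ≤ 4 * o := by exact_mod_cast ho
    have h1' : (o : ℝ) ≤ t := by exact_mod_cast hot
    have ho1 : 1 ≤ o := by omega
    have ho0 : (0 : ℝ) < o := by exact_mod_cast ho1
    have h2 := hmix o m μ (3 * t) ho1 hμ1 (hμo o ho) (by omega)
    have h3 : dev (FWT (3 * t) o t) wwt (fun w => (Wo w : ℤ)) (o + m) μ ≤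
        ∑ T ∈ range (o * (3 * t) + 1), dev (FWT (3 * t) o T) wwt (fun w => (Wo w : ℤ)) (o + m) μ := by
      apply single_le_sum (f := fun T => dev (FWT (3 * t) o T) wwt (fun w => (Wo w : ℤ)) (o + m) μ)
      · intro T _
        exact sum_nonneg fun _ _ => abs_nonneg _
      · rw [mem_range]
        nlinarith
    refine h3.trans (h2.trans ?_)
    have h4 : (m : ℝ) / o ≤ 1 / μ := by
      rw [div_le_div_iff₀ ho0 (by linarith), one_mul]
      have h5 : (m : ℝ) * (40 * μ) ≤ Real.sqrt s * Real.sqrt s :=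
        mul_le_mul hms2 hμs2 (by positivity) hsq0.le
      rw [hss] at h5
      linarith
    have h5 : ((m : ℝ) / o) ^ B ≤ (1 / (μ : ℝ)) ^ B := pow_le_pow_left₀ (by positivity) h4 B
    rw [hDd]
    apply mul_le_mul
    · linarith
    · apply mul_le_mul_of_nonneg_left _ hC0.le
      linarith
    · positivity
    · positivity
  have hmain := count hC hM hB hF hab ht1 hμo E g hg hE c hD0 hD
  refine hmain.trans ?_
  -- numbers
  set Y : ℝ := (b - a) / (2 * 3 ^ m) with hY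
  have hY0 : 0 < Y := by positivity
  have hY2 : (b - a) / 3 ^ m = 2 * Y := by
    rw [hY]; field_simp
  rw [hY2]
  set Ow := OW t (fun v => g (ones v) (cl μ v)) with hOw
  -- `2^t ≤ e^17 e^(-s/10) * 2 Y`
  have h2t : (2 : ℝ) ^ t ≤ Real.exp (832 / 1000 * s) := by
    rw [← Real.rpow_natCast, Real.rpow_def_of_pos (by norm_num)]
    apply Real.exp_le_exp.2
    have h1 := Real.log_two_lt_d9
    have h0 : 0 < Real.log 2 := Real.log_pos (by norm_num)
    calc Real.log 2 * t ≤ Real.log 2 * (6 / 5 * s) := mul_le_mul_of_nonneg_left htc h0.le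
      _ ≤ 832 / 1000 * s := by nlinarith
  have h3m : (3 : ℝ) ^ m ≤ Real.exp (18 / 1000 * s + 17) := by
    rw [← Real.rpow_natCast, Real.rpow_def_of_pos (by norm_num)]
    apply Real.exp_le_exp.2
    have h1 := log3_lt
    have h0 : (0 : ℝ) ≤ m := Nat.cast_nonneg m
    have h2 : Real.log 3 * m ≤ 11 / 10 * m := mul_le_mul_of_nonneg_right h1 h0
    nlinarith [sq_nonneg ((m : ℝ) * (18 / 1000) - 11 / 20)]
  have hprod : (2 : ℝ) ^ t * 3 ^ m ≤ Real.exp (-(1 / 10 * s)) * Real.exp 17 * (b - a) := by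
    calc (2 : ℝ) ^ t * 3 ^ m ≤ Real.exp (832 / 1000 * s) * Real.exp (18 / 1000 * s + 17) := by gcongr
      _ ≤ Real.exp (-(1 / 10 * s)) * Real.exp 17 * Real.exp s := by
          rw [← Real.exp_add, ← Real.exp_add, ← Real.exp_add]
          apply Real.exp_le_exp.2
          linarith
      _ = _ := by rw [hexp]
  have hd1 := exp_decay B (show 0 < 1 / 10 * s by positivity)
  have hd2 := exp_decay B (show 0 < 1 / 160 * s by positivity)
  have hsB : 0 < s ^ B := by positivity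
  have hμs3 : (μ : ℝ) ≤ s := by linarith
  have hinv : 1 / s ^ B ≤ s ^ 2 / (μ : ℝ) ^ B := by
    have h1 : (μ : ℝ) ^ B ≤ s ^ B := pow_le_pow_left₀ (by positivity) hμs3 B
    have h2 : (1 : ℝ) ≤ s ^ 2 := one_le_pow₀ hs
    rw [div_le_div_iff₀ hsB hμB, one_mul]
    nlinarith
  set Z : ℝ := s ^ 2 / (μ : ℝ) ^ B with hZ
  have hZ0 : 0 < Z := by positivity
  have he1 : Real.exp (-(1 / 10 * s)) ≤ F₀ * 10 ^ B * Z := by
    calc Real.exp (-(1 / 10 * s)) ≤ F₀ / (1 / 10 * s) ^ B := hd1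
      _ = F₀ * 10 ^ B * (1 / s ^ B) := by
          rw [mul_pow, div_pow, one_pow]
          field_simp
      _ ≤ F₀ * 10 ^ B * Z := mul_le_mul_of_nonneg_left hinv (by positivity)
  have he2 : Real.exp (-(t / 16 : ℝ)) ≤ F₀ * 160 ^ B * Z := by
    calc Real.exp (-(t / 16 : ℝ)) ≤ Real.exp (-(1 / 160 * s)) := Real.exp_le_exp.2 (by linarith)
      _ ≤ F₀ / (1 / 160 * s) ^ B := hd2
      _ = F₀ * 160 ^ B * (1 / s ^ B) := by
          rw [mul_pow, div_pow, one_pow]
          field_simp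
      _ ≤ F₀ * 160 ^ B * Z := mul_le_mul_of_nonneg_left hinv (by positivity)
  have h2tY : (2 : ℝ) ^ t ≤ Real.exp (-(1 / 10 * s)) * Real.exp 17 * (2 * Y) := by
    rw [← hY2, ← mul_div_assoc, le_div_iff₀ (by positivity)]
    exact hprod
  have h2tK : (2 : ℝ) ^ t ≤ K * Z * (2 * Y) := by
    refine h2tY.trans ?_
    apply mul_le_mul_of_nonneg_right _ (by positivity)
    rw [hK]
    calc Real.exp (-(1 / 10 * s)) * Real.exp 17 ≤ (F₀ * 10 ^ B * Z) * Real.exp 17 :=
          mul_le_mul_of_nonneg_right he1 (Real.exp_pos _).le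
      _ = _ := by ring
  have h2tE : (2 : ℝ) ^ t ≤ Real.exp 17 * (2 * Y) := by
    refine h2tY.trans ?_
    apply mul_le_mul_of_nonneg_right _ (by positivity)
    have : Real.exp (-(1 / 10 * s)) ≤ 1 := by
      rw [Real.exp_le_one_iff]; linarith
    nlinarith [Real.exp_pos (17 : ℝ)]
  have hDZ : ((t : ℝ) + 1) * D ≤ 10 * C * Z := by
    have h1 : (t : ℝ) + 1 ≤ 2.2 * s := by linarith
    calc ((t : ℝ) + 1) * D ≤ (2.2 * s) * D := mul_le_mul_of_nonneg_right h1 hD0
      _ = 9.68 * C * Z := by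
          rw [hDd, hZ, one_div, inv_pow]
          field_simp
          ring
      _ ≤ 10 * C * Z := by nlinarith [mul_pos hC0 hZ0]
  have hfin1 : Real.exp (-(t / 16 : ℝ)) * (2 * Y) ≤ (2 * (F₀ * 160 ^ B)) * Z * Y := by
    calc Real.exp (-(t / 16 : ℝ)) * (2 * Y) ≤ (F₀ * 160 ^ B * Z) * (2 * Y) :=
          mul_le_mul_of_nonneg_right he2 (by positivity)
      _ = _ := by ring
  have hfin2 : 2 * (2 : ℝ) ^ t ≤ (4 * K) * Z * Y := by linarith
  have hfin3 : (2 * Y + 2 ^ t) * ((t + 1) * D) ≤ (2 + 2 * Real.exp 17) * (10 * C) * Z * Y := by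
    calc (2 * Y + 2 ^ t) * ((t + 1) * D) ≤ (2 * Y + Real.exp 17 * (2 * Y)) * (10 * C * Z) := by
          apply mul_le_mul
          · linarith
          · exact hDZ
          · positivity
          · positivity
      _ = _ := by ring
  calc Ow * Y + Real.exp (-(t / 16 : ℝ)) * (2 * Y) + 2 * 2 ^ t + (2 * Y + 2 ^ t) * ((t + 1) * D) ≤
      Ow * Y + (2 * (F₀ * 160 ^ B)) * Z * Y + (4 * K) * Z * Y +
        (2 + 2 * Real.exp 17) * (10 * C) * Z * Y := by linarith
    _ = (Ow + (2 * (F₀ * 160 ^ B) + 4 * K + (2 + 2 * Real.exp 17) * (10 * C)) * s ^ 2 / (μ : ℝ) ^ B) *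
        Y := by
        rw [mul_div_assoc, ← hZ]
        ring

end Pool.Agent.Q176.BH
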